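import Pool.Agent.H66.PinDefs
import Pool.Agent.H66.Sharp4

/-! Divisible pinwheel instances of density at most 1/64 are decided in polynomial time. -/

namespace Pool.Agent.Results.MP_4842e4_lc.Yes

open Finset

theorem balance {ι : Type} [DecidableEq ι] (s : Finset ι) (a w : ι → ℕ) (W : ℝ) (h0 : 0 ≤ W)
    (hw : ∀ i ∈ s, (w i : ℝ) ≤ W) : ∃ o : ι → ℕ, ∀ r,
      ((∑ i ∈ s with r % 2 ^ a i = o i % 2 ^ a i, w i : ℕ) : ℝ) ≤
        ∑ i ∈ s, (w i : ℝ) / 2 ^ a i + W := by
  induction s using Finset.induction_on_max_value a with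
  | empty => exact ⟨fun _ => 0, fun r => by simpa using h0⟩
  | insert j s hj hm ih =>
    obtain ⟨o, ho⟩ := ih fun i hi => hw i (mem_insert_of_mem hi)
    obtain ⟨r0, -, h1⟩ : ∃ r0 ∈ range (2 ^ a j),
        ((∑ i ∈ s with r0 % 2 ^ a i = o i % 2 ^ a i, w i : ℕ) : ℝ) ≤
          ∑ i ∈ s, (w i : ℝ) / 2 ^ a i := by
      refine Finset.exists_le_of_sum_le ⟨0, by simp⟩ ?_
      simp only [sum_filter, Nat.cast_sum, sum_const, card_range, nsmul_eq_mul, mul_sum]
      rw [sum_comm]
      refine sum_le_sum fun i hi => ?_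
      obtain ⟨k, hk⟩ := Nat.exists_eq_add_of_le (hm i hi)
      have c : #{r ∈ range (2 ^ a j) | r % 2 ^ a i = o i % 2 ^ a i} ≤ #(range (2 ^ k)) := by
        refine card_le_card_of_injOn (fun r => r / 2 ^ a i) (fun r hr => ?_) fun r hr r' hr' e => ?_
        · simp only [coe_filter, mem_range, Set.mem_setOf_eq, coe_range, Set.mem_Iio] at hr ⊢
          rw [Nat.div_lt_iff_lt_mul (by positivity), ← pow_add, add_comm, ← hk]; exact hr.1
        · simp only [coe_filter, Set.mem_setOf_eq] at hr hr' e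
          rw [← Nat.div_add_mod r (2 ^ a i), ← Nat.div_add_mod r' (2 ^ a i), e, hr.2, hr'.2]
      rw [card_range] at c
      rw [← Nat.cast_sum, ← sum_filter, sum_const, smul_eq_mul, hk]
      have c' : ((#{r ∈ range (2 ^ a j) | r % 2 ^ a i = o i % 2 ^ a i} : ℕ) : ℝ) ≤ 2 ^ k := by
        exact_mod_cast c
      rw [← hk]
      push_cast
      have : (2 : ℝ) ^ a j * (w i / 2 ^ a i) = 2 ^ k * w i := by rw [hk, pow_add]; field_simp
      rw [this]
      gcongr
    refine ⟨Function.update o j r0, fun r => ?_⟩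
    have e : ∀ r, ∑ i ∈ s with r % 2 ^ a i = Function.update o j r0 i % 2 ^ a i, w i =
        ∑ i ∈ s with r % 2 ^ a i = o i % 2 ^ a i, w i := fun r =>
      sum_congr (filter_congr fun i hi => by
        rw [Function.update_of_ne (a := i) (a' := j) (fun h => hj (h ▸ hi))]) fun _ _ => rfl
    have p0 : (0 : ℝ) ≤ w j / 2 ^ a j := by positivity
    rw [filter_insert, sum_insert hj, Function.update_self]
    split_ifs with h
    · rw [sum_insert (fun h => hj (mem_filter.1 h).1), e]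
      have e2 : ∑ i ∈ s with r % 2 ^ a i = o i % 2 ^ a i, w i =
          ∑ i ∈ s with r0 % 2 ^ a i = o i % 2 ^ a i, w i :=
        sum_congr (filter_congr fun i hi => by
          rw [← Nat.mod_mod_of_dvd r (pow_dvd_pow 2 (hm i hi)), h,
            Nat.mod_mod_of_dvd r0 (pow_dvd_pow 2 (hm i hi))]) fun _ _ => rfl
      rw [e2, Nat.cast_add]
      linarith [hw j (mem_insert_self _ _)]
    · rw [e]; linarith [ho r]

def Feas {ι : Type} (f p : ι → ℕ) : Prop :=
  ∃ S : ℕ → ι, ∀ i, (S ⁻¹' {i}).Infinite ∧ ∀ a b, a < b → S a = i → S b = i →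
    (∀ t, a < t → t < b → S t ≠ i) → ∑ t ∈ Finset.Ioc a b, p (S t) ≤ f i

theorem virt {ι : Type} (i0 : ι) (f p : ι → ℕ) (V : ℕ → Option ι)
    (h1 : ∀ i, ∃ u, V u = some i) (h2 : ∀ i u, V u = some i → ∃ u', u < u' ∧ V u' = some i ∧
      ∑ v ∈ range (u' + 1), (V v).elim 0 p ≤ ∑ v ∈ range (u + 1), (V v).elim 0 p + f i) :
    Feas f p := by
  classical
  have inf : ∀ i, {u | V u = some i}.Infinite := fun i =>
    Set.infinite_of_forall_exists_gt fun n => by
      induction n with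
      | zero =>
        obtain ⟨u, hu⟩ := h1 i
        obtain ⟨u', a, b, -⟩ := h2 i u hu
        exact ⟨u', b, by omega⟩
      | succ n ih =>
        obtain ⟨u, hu, hn⟩ := ih
        obtain ⟨u', a, b, -⟩ := h2 i u hu
        exact ⟨u', b, by omega⟩
  let P : ℕ → Prop := fun u => (V u).isSome
  have hP : {u | P u}.Infinite := (inf i0).mono fun u (hu : V u = _) => by simp [P, hu]
  let S : ℕ → ι := fun t => (V (Nat.nth P t)).getD i0
  have hS : ∀ t, V (Nat.nth P t) = some (S t) := fun t => by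
    have := Nat.nth_mem_of_infinite hP t
    obtain ⟨x, hx⟩ := Option.isSome_iff_exists.1 this
    simp [S, hx]
  have hc : ∀ u i, V u = some i → S (Nat.count P u) = i := fun u i h => by
    simp [S, Nat.nth_count (show P u by simp [P, h]), h]
  have hT : ∀ u, ∑ t ∈ range (Nat.count P u), p (S t) = ∑ v ∈ range u, (V v).elim 0 p := by
    intro u
    induction u with
    | zero => simp
    | succ u ih =>
      rw [Nat.count_succ, sum_range_succ, ← ih]
      obtain h | ⟨i, h⟩ : V u = none ∨ ∃ i, V u = some i := by cases V u <;> simp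
      · simp [P, h]
      · rw [if_pos (by simp [P, h]), sum_range_succ, hc u i h, h]; rfl
  refine ⟨S, fun i => ⟨?_, fun a b hab ha hb hn => ?_⟩⟩
  · refine Set.infinite_of_injOn_mapsTo (f := Nat.count P) (fun u hu v hv e => ?_)
      (fun u hu => hc u i hu) (inf i)
    exact Nat.count_injective (show P u by simp [P, show V u = _ from hu])
      (show P v by simp [P, show V v = _ from hv]) e
  · obtain ⟨u', h3, h4, h5⟩ := h2 i _ (ha ▸ hS a)
    have c1 : Nat.count P (Nat.nth P a + 1) = a + 1 := Nat.count_nth_succ_of_infinite hP a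
    have c2 : Nat.count P (u' + 1) = Nat.count P u' + 1 := by
      rw [Nat.count_succ, if_pos (by simp [P, h4])]
    have c3 : a + 1 ≤ Nat.count P u' := c1 ▸ Nat.count_monotone P h3
    have c4 : b ≤ Nat.count P u' := not_lt.1 fun h => hn _ c3 h (hc _ _ h4)
    rw [← hT, ← hT, c1, c2] at h5
    have c5 : ∑ t ∈ range (a + 1), p (S t) + ∑ t ∈ Ioc a b, p (S t) ≤
        ∑ t ∈ range (Nat.count P u' + 1), p (S t) := by
      rw [← sum_union (by simp [disjoint_left]; omega)]
      exact sum_le_sum_of_subset fun t ht => by simp at ht ⊢; omega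
    omega

theorem rounds {n : ℕ} (i0 : Fin n) (f p : Fin n → ℕ) (G : Finset (Fin n))
    (A : ℕ → Finset (Fin n)) (R : ℕ → ℕ) (hR0 : R 0 = 0)
    (hR : ∀ r, R (r + 1) = R r + ∑ i ∈ G, p i + ∑ i ∈ A r, p i)
    (hA : ∀ r, ∀ i ∈ A r, i ∉ G) (hG : ∀ i ∈ G, ∀ r, R (r + 1) ≤ R r + f i)
    (h1 : ∀ i ∉ G, ∃ r, i ∈ A r) (h2 : ∀ r, ∀ i ∈ A r, ∃ r', r < r' ∧ i ∈ A r' ∧
      R (r' + 1) ≤ R r + ∑ i ∈ G, p i + p i + f i) : Feas f p := by
  have hn : 0 < n := i0.pos
  let c : Finset (Fin n) → ℕ → Option (Fin n) := fun B k =>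
    if h : k < n then (if ⟨k, h⟩ ∈ B then some ⟨k, h⟩ else none) else none
  let V : ℕ → Option (Fin n) := fun u =>
    if u % (2 * n) < n then c G (u % (2 * n)) else c (A (u / (2 * n))) (u % (2 * n) - n)
  have hc : ∀ B, ∑ k ∈ range n, (c B k).elim 0 p = ∑ i ∈ B, p i := by
    intro B
    rw [← Fin.sum_univ_eq_sum_range (fun k => (c B k).elim 0 p), ← Finset.sum_ite_mem_eq B]
    refine sum_congr rfl fun i _ => ?_
    by_cases h : i ∈ B <;> simp [c, h]
  have hc2 : ∀ B k i, c B k = some i ↔ k = i.val ∧ i ∈ B := by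
    intro B k i
    simp only [c]
    constructor
    · intro h; split_ifs at h with h1 h2; cases h; exact ⟨rfl, h2⟩
    · rintro ⟨rfl, h⟩; simp [h]
  have v1 : ∀ r k, k < n → V (2 * n * r + k) = c G k := fun r k hk => by
    simp only [V]; rw [Nat.mul_add_mod, Nat.mod_eq_of_lt (by omega), if_pos hk]
  have v2 : ∀ r k, k < n → V (2 * n * r + n + k) = c (A r) k := fun r k hk => by
    simp only [V]
    rw [add_assoc, Nat.mul_add_mod, Nat.mod_eq_of_lt (by omega), if_neg (by omega),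
      Nat.mul_add_div (by omega), Nat.div_eq_of_lt (by omega), Nat.add_sub_cancel_left, add_zero]
  set T : ℕ → ℕ := fun u => ∑ v ∈ range u, (V v).elim 0 p with hT
  have t1 : ∀ r k, k ≤ n → T (2 * n * r + k) = T (2 * n * r) + ∑ j ∈ range k, (c G j).elim 0 p :=
    fun r k hk => by
      simp only [T]; rw [sum_range_add]; congr 1
      exact sum_congr rfl fun j hj => by rw [v1 r j (by simp at hj; omega)]
  have t2 : ∀ r, T (2 * n * r) = R r := by
    intro r
    induction r with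
    | zero => simp [T, hR0]
    | succ r ih =>
      rw [hR, ← ih, ← hc G, ← t1 r n le_rfl, show 2 * n * (r + 1) = 2 * n * r + n + n by ring, ← hc]
      simp only [T]; rw [sum_range_add]; congr 1
      exact sum_congr rfl fun j hj => by rw [v2 r j (by simpa using hj)]
  have tm : Monotone T := fun a b h => sum_le_sum_of_subset (range_subset_range.2 h)
  refine virt i0 f p V (fun i => ?_) fun i u hu => ?_
  · by_cases h : i ∈ G
    · exact ⟨_, (v1 0 i i.2).trans ((hc2 _ _ _).2 ⟨rfl, h⟩)⟩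
    · obtain ⟨r, hr⟩ := h1 i h
      exact ⟨_, (v2 r i i.2).trans ((hc2 _ _ _).2 ⟨rfl, hr⟩)⟩
  · change ∃ u', u < u' ∧ V u' = some i ∧ T (u' + 1) ≤ T (u + 1) + f i
    have hi := i.2
    obtain ⟨r, k, hk, rfl⟩ : ∃ r k, k < 2 * n ∧ u = 2 * n * r + k :=
      ⟨_, _, Nat.mod_lt _ (by omega), (Nat.div_add_mod _ _).symm⟩
    by_cases h : k < n
    · rw [v1 r k h, hc2] at hu
      refine ⟨2 * n * (r + 1) + k, by nlinarith, (v1 _ k h).trans ((hc2 _ _ _).2 hu), ?_⟩
      rw [add_assoc, add_assoc, t1 _ _ h, t1 _ _ h, t2, t2]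
      have := hG i hu.2 r
      omega
    · obtain ⟨k, rfl⟩ : ∃ j, k = n + j := Nat.exists_eq_add_of_le (by omega)
      rw [← add_assoc] at *
      have hu' := hu
      rw [v2 r k (by omega), hc2] at hu
      obtain ⟨r', a, b, d⟩ := h2 r i hu.2
      refine ⟨2 * n * r' + n + k, by nlinarith, (v2 _ k (by omega)).trans
        ((hc2 _ _ _).2 ⟨hu.1, b⟩), ?_⟩
      have e1 : T (2 * n * r' + n + k + 1) ≤ T (2 * n * (r' + 1)) := tm (by nlinarith)
      have e2 : T (2 * n * r + n + k + 1) = T (2 * n * r + n + k) + p i := by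
        simp only [T]; rw [sum_range_succ, hu']; rfl
      have e3 : T (2 * n * r + n) ≤ T (2 * n * r + n + k) := tm (by omega)
      rw [t1 _ _ le_rfl, hc, t2] at e3
      rw [t2] at e1
      omega

theorem nec {n : ℕ} (f p : Fin n → ℕ) (F : ℕ) (i0 : Fin n) (h0 : f i0 = F) (h : Feas f p)
    (j : Fin n) (hj : f j ≠ F) : ∑ i with f i = F, p i + p j ≤ F := by
  classical
  obtain ⟨S, hS⟩ := h
  choose a ha using fun i => (hS i).1.nonempty
  obtain ⟨t, ht, hlt⟩ := (hS j).1.exists_gt (univ.sup a)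
  have ex : ∀ i, ∃ b, t < b ∧ S b = i := fun i =>
    let ⟨b, h1, h2⟩ := (hS i).1.exists_gt t; ⟨b, h2, h1⟩
  obtain ⟨i, hi, hm⟩ := exists_max_image (univ.filter fun i => f i = F) (fun i => Nat.find (ex i))
    ⟨i0, by simp [h0]⟩
  have hi' : f i = F := by simpa using hi
  have hne : S t ≠ i := fun e => hj (by rw [← show S t = j from ht, e, hi'])
  have h1 : a i ≤ t := (le_sup (f := a) (mem_univ i)).trans hlt.le
  have h2 := Nat.findGreatest_spec (P := fun u => S u = i) h1 (ha i)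
  have h3 := Nat.findGreatest_le (P := fun u => S u = i) t
  set u := Nat.findGreatest (fun u => S u = i) t with hu
  have h4 : u < t := lt_of_le_of_ne h3 fun e => hne (e ▸ h2)
  have h5 := (hS i).2 u (Nat.find (ex i)) (h4.trans (Nat.find_spec (ex i)).1) h2
    (Nat.find_spec (ex i)).2 fun s s1 s2 e => by
      by_cases h : s ≤ t
      · exact Nat.findGreatest_is_greatest (P := fun u => S u = i) s1 h e
      · exact Nat.find_min (ex i) s2 ⟨by omega, e⟩
  refine le_trans ?_ (h5.trans hi'.le)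
  have h6 : ∑ s ∈ insert t ((univ.filter fun i => f i = F).image fun i => Nat.find (ex i)),
      p (S s) = ∑ i with f i = F, p i + p j := by
    rw [sum_insert, sum_image, add_comm, show S t = j from ht]
    · congr 1
      exact sum_congr rfl fun i _ => by rw [(Nat.find_spec (ex i)).2]
    · intro x _ y _ e
      rw [← (Nat.find_spec (ex x)).2, ← (Nat.find_spec (ex y)).2]
      exact congrArg S e
    · simp only [mem_image, not_exists, not_and]
      exact fun x _ => (Nat.find_spec (ex x)).1.ne'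
  rw [← h6]
  refine sum_le_sum_of_subset fun s hs => ?_
  simp only [mem_insert, mem_image, mem_Ioc] at hs ⊢
  obtain rfl | ⟨x, hx, rfl⟩ := hs
  · exact ⟨h4, (Nat.find_spec (ex i)).1.le⟩
  · exact ⟨h4.trans (Nat.find_spec (ex x)).1, hm x hx⟩

theorem suff {n : ℕ} (f p : Fin n → ℕ) (F : ℕ) (i0 : Fin n) (hF : 0 < F)
    (hf : ∀ i, f i ≠ F → 2 * F ≤ f i) (hd : ∑ i, (p i : ℝ) / f i ≤ 1 / 64)
    (h : ∀ j, f j ≠ F → ∑ i with f i = F, p i + p j ≤ F) : Feas f p := by
  classical
  have hF' : (0 : ℝ) < F := by exact_mod_cast hF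
  let a : Fin n → ℕ := fun i => Nat.log 2 (f i / (2 * F))
  have a1 : ∀ i, f i ≠ F → 2 ^ a i * (2 * F) ≤ f i := fun i hi =>
    (Nat.le_div_iff_mul_le (by omega)).1 (Nat.pow_log_le_self 2
      (Nat.div_pos (hf i hi) (by omega)).ne')
  have a2 : ∀ i, f i ≠ F → (1 : ℝ) / 2 ^ a i ≤ 4 * F / f i := fun i hi => by
    have := (Nat.div_lt_iff_lt_mul (by omega : 0 < 2 * F)).1
      (Nat.lt_pow_succ_log_self (b := 2) (by omega) (f i / (2 * F)))
    have h1 : (f i : ℝ) ≤ 2 ^ (a i + 1) * (2 * F) := by exact_mod_cast this.le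
    have h2 : (0 : ℝ) < f i := by have := hf i hi; exact_mod_cast (by omega : 0 < f i)
    rw [div_le_div_iff₀ (by positivity) h2]
    rw [pow_succ] at h1; linarith
  have sub : ∀ s : Finset (Fin n), ∑ i ∈ s, (p i : ℝ) / f i ≤ 1 / 64 := fun s =>
    (sum_le_sum_of_subset_of_nonneg (subset_univ s) fun _ _ _ => by positivity).trans hd
  set P := ∑ i with f i = F, p i with hP
  have hP1 : (P : ℝ) ≤ F / 64 := by
    have := sub (univ.filter fun i => f i = F)
    rw [sum_congr rfl (g := fun i => (p i : ℝ) / F) (fun i hi => by rw [(mem_filter.1 hi).2]),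
      ← sum_div, div_le_iff₀ hF'] at this
    rw [hP]; push_cast; linarith
  let s1 := univ.filter fun i => f i ≠ F ∧ 8 * p i ≤ F
  let s2 := univ.filter fun i => f i ≠ F ∧ ¬8 * p i ≤ F
  obtain ⟨o1, b1⟩ := balance s1 a p (F / 8) (by positivity) fun i hi => by
    have : (8 * p i : ℝ) ≤ F := by exact_mod_cast (mem_filter.1 hi).2.2
    linarith
  obtain ⟨o2, b2⟩ := balance s2 a (fun _ => 1) 1 zero_le_one fun i _ => by simp
  have c1 : ∑ i ∈ s1, (p i : ℝ) / 2 ^ a i ≤ 4 * F * ∑ i ∈ s1, (p i : ℝ) / f i := by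
    rw [mul_sum]
    refine sum_le_sum fun i hi => ?_
    have := mul_le_mul_of_nonneg_left (a2 i (mem_filter.1 hi).2.1) (Nat.cast_nonneg (p i))
    convert this using 1 <;> ring
  have c2 : ∑ i ∈ s2, ((1 : ℕ) : ℝ) / 2 ^ a i ≤ 32 * ∑ i ∈ s2, (p i : ℝ) / f i := by
    rw [mul_sum]
    refine sum_le_sum fun i hi => ?_
    have h1 : (F : ℝ) ≤ 8 * p i := by exact_mod_cast (not_le.1 (mem_filter.1 hi).2.2).le
    rw [Nat.cast_one, ← mul_div_assoc]
    refine (a2 i (mem_filter.1 hi).2.1).trans ?_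
    exact div_le_div_of_nonneg_right (by linarith) (by positivity)
  let A1 := fun r => s1.filter fun i => r % 2 ^ a i = o1 i % 2 ^ a i
  let A2 := fun r => s2.filter fun i => r % 2 ^ a i = o2 i % 2 ^ a i
  have d1 : ∀ r, 2 * (P + ∑ i ∈ A1 r, p i) ≤ F := fun r => by
    have h1 := b1 r
    have h2 := mul_le_mul_of_nonneg_left (sub s1) (by positivity : (0 : ℝ) ≤ 4 * F)
    have : (2 * (P + (∑ i ∈ A1 r, p i : ℕ)) : ℝ) ≤ F := by simp only [A1]; linarith
    exact_mod_cast this
  have d2 : ∀ r, ∀ i ∈ A2 r, A2 r = {i} := fun r i hi => by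
    have h1 := b2 r
    rw [← card_eq_sum_ones] at h1
    have : ((#(A2 r) : ℕ) : ℝ) < 2 := by simp only [A2]; linarith [sub s2]
    have h2 : #(A2 r) ≤ 1 := by have : #(A2 r) < 2 := by exact_mod_cast this
                                omega
    exact eq_singleton_iff_unique_mem.2 ⟨hi, fun x hx => card_le_one.1 h2 _ hx _ hi⟩
  have d3 : ∀ r, P + ∑ i ∈ A2 r, p i ≤ F := fun r => by
    obtain e | ⟨i, hi⟩ := (A2 r).eq_empty_or_nonempty
    · have := d1 r; rw [e, sum_empty]; omega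
    · rw [d2 r i hi, sum_singleton]; exact h i (mem_filter.1 (mem_filter.1 hi).1).2.1
  let A : ℕ → Finset (Fin n) := fun r => if r % 2 = 0 then A1 (r / 2) else A2 (r / 2)
  let R : ℕ → ℕ := fun r => ∑ t ∈ range r, (P + ∑ i ∈ A t, p i)
  have hR : ∀ r, R (r + 1) = R r + P + ∑ i ∈ A r, p i := fun r => by
    simp only [R]; rw [sum_range_succ, add_assoc]
  have e1 : ∀ r, r % 2 = 0 → 2 * R (r + 1) ≤ 2 * R r + F := fun r hr => by
    have := d1 (r / 2); rw [hR]; simp only [A, if_pos hr]; omega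
  have e2 : ∀ r, R (r + 1) ≤ R r + F := fun r => by
    by_cases hr : r % 2 = 0
    · have := e1 r hr; omega
    · have := d3 (r / 2); rw [hR]; simp only [A, if_neg hr]; omega
  have e3 : ∀ r m, r % 2 = 0 → 2 * R (r + 2 * m) ≤ 2 * R r + 3 * (m * F) := fun r m hr => by
    induction m with
    | zero => simp
    | succ m ih =>
      have h1 := e1 (r + 2 * m) (by omega)
      have h2 := e2 (r + 2 * m + 1)
      rw [show r + 2 * (m + 1) = r + 2 * m + 1 + 1 by ring, add_mul]; omega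
  refine rounds i0 f p (univ.filter fun i => f i = F) A R (by simp [R]) hR (fun r i hi => ?_)
    (fun i hi r => by rw [(mem_filter.1 hi).2]; exact e2 r) (fun i hi => ?_) fun r i hi => ?_
  · simp only [A] at hi
    split_ifs at hi <;> simpa using (mem_filter.1 (mem_filter.1 hi).1).2.1
  · have hi' : f i ≠ F := by simpa using hi
    by_cases hs : 8 * p i ≤ F
    · exact ⟨2 * o1 i, by simp [A, A1, s1, hi', hs]⟩
    · refine ⟨2 * o2 i + 1, ?_⟩
      simp only [A]
      rw [if_neg (by omega), show (2 * o2 i + 1) / 2 = o2 i by omega]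
      simp [A2, s2, hi', not_le.1 hs]
  · have hp : 1 ≤ 2 ^ a i := Nat.one_le_two_pow
    have hpF : F ≤ 2 ^ a i * F := Nat.le_mul_of_pos_left _ hp
    have hv : (r + 2 * 2 ^ a i) / 2 = r / 2 + 2 ^ a i := by omega
    refine ⟨r + 2 * 2 ^ a i, by omega, ?_, ?_⟩
    · simp only [A, Nat.add_mul_mod_self_left, hv] at hi ⊢
      split_ifs at hi ⊢ <;> simpa [A1, A2] using hi
    · by_cases hr : r % 2 = 0
      · simp only [A, if_pos hr] at hi
        have h1 := a1 i (mem_filter.1 (mem_filter.1 hi).1).2.1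
        have h2 := e3 r (2 ^ a i) hr
        have h3 := e1 (r + 2 * 2 ^ a i) (by omega)
        rw [mul_left_comm] at h1
        omega
      · have h4 := hR r
        simp only [A, if_neg hr] at hi h4
        have h1 := a1 i (mem_filter.1 (mem_filter.1 hi).1).2.1
        have h2 := e3 (r + 1) (2 ^ a i) (by omega)
        rw [d2 _ i hi, sum_singleton] at h4
        rw [mul_left_comm] at h1
        rw [add_right_comm]
        omega

open Pool.Agent.H38.NP Pool.Agent.H38.ER Pool.Agent.H66.Pin Pool.Agent.H66.Sharp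

def hd (V : List (Bin × Bin)) : Bin := (V.headD (⟨0⟩, ⟨0⟩)).1

def p1 (V : List (Bin × Bin)) : Bin := Bin.mk ((V.map fun x =>
  (((cond (decide (x.1.val ≤ (hd V).val)) x.2 ⟨0⟩).val : ℤ) - ((Bin.mk 0).val : ℤ))).sum).toNat

def alg (V : List (Bin × Bin)) : Bool := V.all fun q => decide (q.1.val ≤ (hd V).val) ||
  decide ((Bin.mk ((p1 V).val + q.2.val)).val ≤ (hd V).val)

theorem pt_alg : PT alg := by
  have h1 : PT hd := by unfold hd; fun_prop
  have h2 : PT p1 := pt_pos (pt_zsum (PT.map (pt_diff (PT.cond (pt_ble (by fun_prop)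
    (h1.comp (by fun_prop))) (by fun_prop) (PT.const _)) (PT.const _)) PT.id'))
  exact PT.all (PT.or (pt_ble (by fun_prop) (h1.comp (by fun_prop)))
    (pt_ble (pt_badd (h2.comp (by fun_prop)) (by fun_prop)) (h1.comp (by fun_prop)))) PT.id'

theorem result : ∃ α : ℝ, 0 < α ∧ α ≤ 2 / 3 ∧
    InPOn (fun V => DivInst V ∧ density V ≤ α) Feasible := by
  refine ⟨1 / 64, by norm_num, by norm_num, inPOn_of_pt alg pt_alg fun V ⟨⟨h0, h1, h2⟩, h3⟩ => ?_⟩
  have hn : 0 < V.length := List.length_pos_iff.2 h0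
  have e0 : fr V ⟨0, hn⟩ = (hd V).val := by
    cases V with
    | nil => exact absurd rfl h0
    | cons a V => rfl
  have dv : ∀ k (hk : k < V.length), (hd V).val ∣ fr V ⟨k, hk⟩ := fun k => by
    induction k with
    | zero => exact fun _ => e0 ▸ dvd_rfl
    | succ k ih => exact fun hk => (ih (by omega)).trans (h2 ⟨k, by omega⟩ ⟨k + 1, hk⟩ rfl).2
  have hF : 0 < (hd V).val := e0 ▸ (h1 _).1
  have le : ∀ i, fr V i ≤ (hd V).val ↔ fr V i = (hd V).val := fun i =>
    ⟨fun h => h.antisymm (Nat.le_of_dvd (h1 i).1 (dv i i.2)), le_of_eq⟩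
  have e1 : (p1 V).val = ∑ i with fr V i = (hd V).val, du V i := by
    simp only [p1]
    rw [← Fin.sum_univ_fun_getElem, sum_filter, ← Int.toNat_natCast (∑ _, _), Nat.cast_sum]
    refine congrArg _ (sum_congr rfl fun i _ => ?_)
    by_cases h : fr V i = (hd V).val
    · rw [if_pos h, decide_eq_true (p := V[i.1].1.val ≤ _) ((le i).2 h)]; simp [du]
    · rw [if_neg h, decide_eq_false (p := V[i.1].1.val ≤ _) fun x => h ((le i).1 x)]; simp
  have e2 : alg V = true ↔ ∀ j, fr V j ≠ (hd V).val →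
      ∑ i with fr V i = (hd V).val, du V i + du V j ≤ (hd V).val := by
    simp only [alg, List.all_eq_true, List.forall_mem_iff_forall_getElem, Bool.or_eq_true,
      decide_eq_true_eq, e1]
    exact ⟨fun h j hj => (h j j.2).resolve_left fun x => hj ((le j).1 x), fun h j hj =>
      or_iff_not_imp_left.2 fun x => h ⟨j, hj⟩ fun y => x ((le _).2 y)⟩
  rw [e2]
  refine ⟨nec _ _ _ _ e0, suff _ _ _ ⟨0, hn⟩ hF (fun i hi => ?_) h3⟩
  obtain ⟨c, hc⟩ := dv i i.2
  have := (h1 i).1
  change fr V i = _ at hc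
  rw [hc] at this hi ⊢
  rcases c with _ | _ | c
  · simp at this
  · simp at hi
  · nlinarith

end Pool.Agent.Results.MP_4842e4_lc.Yes
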